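import Pool.Agent.Q178.KP.G

/-!
# MP_ad4c49_an: a reflexive space answering the kernel problem negatively whose dual answers it
positively

The space is the `ℓ₂`-sum over `n : ℕ` of the spaces `ℓ₂(ω₁)` renormed by
`max (‖x‖_∞, 2^{-n} ‖x‖₂)`.
-/

set_option autoImplicit false

namespace Pool.Agent.Results.MP_ad4c49_an.DualAnswersPositively

open Pool.Agent.Q178.KP

/-- The Banach space `E` answers the kernel problem positively: every closed subspace of `E` is the
kernel of a bounded operator from `E` to itself. -/
def AnswersPositively (𝕜 : Type) [RCLike 𝕜] (E : Type) [NormedAddCommGroup E] [NormedSpace 𝕜 E] :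
    Prop :=
  ∀ Y : Submodule 𝕜 E, IsClosed (Y : Set E) → ∃ T : E →L[𝕜] E, LinearMap.ker T.toLinearMap = Y

/-- Over the real and over the complex numbers there is a reflexive Banach space which answers the
kernel problem negatively while its dual space answers it positively. -/
theorem result (𝕜 : Type) [RCLike 𝕜] :
    ∃ (X : Type) (_ : NormedAddCommGroup X) (_ : NormedSpace 𝕜 X) (_ : CompleteSpace X),
      Function.Surjective (NormedSpace.inclusionInDoubleDual 𝕜 X) ∧
      ¬ AnswersPositively 𝕜 X ∧ AnswersPositively 𝕜 (StrongDual 𝕜 X) := by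
  classical
  refine ⟨Xs 𝕜 Om, inferInstance, inferInstance, inferInstance, refl_Xs, ?_, ?_⟩
  · intro h
    obtain ⟨T, hT⟩ := h (Yb 𝕜 Om) isClosed_Yb
    exact not_kernel om_uncountable T fun x => by
      rw [← hT]
      rfl
  · intro Y hY
    have hinf : Infinite Om := by
      by_contra hcon
      rw [not_infinite_iff_finite] at hcon
      exact om_uncountable inferInstance
    obtain ⟨T, hT⟩ := dual_kernel (𝕜 := 𝕜) om_Iic hinf Y hY
    refine ⟨T, ?_⟩
    ext f
    exact hT f

end Pool.Agent.Results.MP_ad4c49_an.DualAnswersPositively
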